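import Pool.Agent.N805.JG.Stm

/-!
# JG/VAR (project of helper805, helper247): the number variance of an arc
-/

set_option autoImplicit false

open MeasureTheory Filter Topology Finset

namespace Pool.Agent.N247.JG

namespace Var

open Pool.Agent.N805.JG (e V)

lemma int_U {E : Type} [NormedAddCommGroup E] [NormedSpace ℝ E] (g : ℝ → E)
    (hg : Function.Periodic g 1) (a h : ℝ) (h0 : 0 ≤ h) (h1 : h ≤ 1) :
    ∫ t in {t : ℝ | t ∈ Set.Ico (0:ℝ) 1 ∧ Int.fract (t - a) < h}, g t = ∫ t in a..(a+h), g t := by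
  have hm : MeasurableSet {t : ℝ | Int.fract (t - a) < h} :=
    measurableSet_lt (measurable_fract.comp (measurable_id.sub_const a)) measurable_const
  set W := {t : ℝ | Int.fract (t-a) < h} with hW
  have hper : Function.Periodic (W.indicator g) 1 := by
    intro t
    have : t + 1 ∈ W ↔ t ∈ W := by
      simp only [hW, Set.mem_ofPred_eq]
      rw [show t + 1 - a = (t - a) + 1 by ring, Int.fract_add_one]
    by_cases ht : t ∈ W
    · rw [Set.indicator_of_mem (this.2 ht), Set.indicator_of_mem ht, hg]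
    · rw [Set.indicator_of_notMem (fun h => ht (this.1 h)), Set.indicator_of_notMem ht]
  have e1 : {t : ℝ | t ∈ Set.Ico (0:ℝ) 1 ∧ Int.fract (t - a) < h} = Set.Ico 0 1 ∩ W := rfl
  rw [e1, ← setIntegral_indicator hm, integral_Ico_eq_integral_Ioc,
    ← intervalIntegral.integral_of_le zero_le_one]
  have e2 := hper.intervalIntegral_add_eq 0 a
  rw [zero_add] at e2
  rw [e2, intervalIntegral.integral_of_le (by linarith), ← integral_Ico_eq_integral_Ioc,
    setIntegral_indicator hm]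
  have e3 : Set.Ico a (a+1) ∩ W = Set.Ico a (a+h) := by
    ext t
    simp only [Set.mem_inter_iff, Set.mem_Ico, hW, Set.mem_ofPred_eq]
    constructor
    · rintro ⟨⟨h2, h3⟩, h4⟩
      rw [Int.fract_eq_self.2 ⟨by linarith, by linarith⟩] at h4
      exact ⟨h2, by linarith⟩
    · rintro ⟨h2, h3⟩
      refine ⟨⟨h2, by linarith⟩, ?_⟩
      rw [Int.fract_eq_self.2 ⟨by linarith, by linarith⟩]; linarith
  rw [e3, integral_Ico_eq_integral_Ioc, ← intervalIntegral.integral_of_le (by linarith)]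

lemma vol_U (a h : ℝ) (h0 : 0 ≤ h) (h1 : h ≤ 1) :
    volume.real {t : ℝ | t ∈ Set.Ico (0:ℝ) 1 ∧ Int.fract (t - a) < h} = h := by
  have := int_U (fun _ => (1:ℝ)) (fun _ => rfl) a h h0 h1
  simpa using this

lemma e_per (n : ℤ) : Function.Periodic (fun t : ℝ => e (n * t)) 1 := by
  intro t
  simp only [e]
  rw [Complex.exp_eq_exp_iff_exists_int]
  exact ⟨n, by push_cast; ring⟩

/-- the size of the Fourier coefficients -/
noncomputable def s (h : ℝ) (n : ℕ) : ℝ := Real.sin (Real.pi * n * h) ^ 2 / (Real.pi * n) ^ 2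

lemma norm_int (n : ℤ) (hn : n ≠ 0) (a h : ℝ) :
    ‖∫ t in a..(a+h), e (n * t)‖ ^ 2 = Real.sin (Real.pi * n * h) ^ 2 / (Real.pi * n) ^ 2 := by
  have hc : (2 * Real.pi * n * Complex.I : ℂ) ≠ 0 := by
    have : (n : ℂ) ≠ 0 := by exact_mod_cast hn
    have h2 : (Real.pi : ℂ) ≠ 0 := by exact_mod_cast Real.pi_ne_zero
    simp [this, h2]
  have h1 : ∀ t : ℝ, e (n * t) = Complex.exp ((2 * Real.pi * n * Complex.I) * t) := by
    intro t
    unfold e
    congr 1
    push_cast
    ring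
  simp_rw [h1]
  rw [integral_exp_mul_complex hc]
  have h2 : Complex.exp (2 * Real.pi * n * Complex.I * ((a + h : ℝ) : ℂ)) -
      Complex.exp (2 * Real.pi * n * Complex.I * (a : ℂ)) =
      Complex.exp (((2 * Real.pi * n * a : ℝ) : ℂ) * Complex.I) *
        (Complex.exp (Complex.I * ((2 * Real.pi * n * h : ℝ) : ℂ)) - 1) := by
    rw [mul_sub, ← Complex.exp_add, mul_one]
    congr 1
    · congr 1; push_cast; ring
    · congr 1; push_cast; ring
  rw [h2, norm_div, norm_mul, Complex.norm_exp_ofReal_mul_I, one_mul,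
    Complex.norm_exp_I_mul_ofReal_sub_one, div_pow, Real.norm_eq_abs, sq_abs]
  have h3 : ‖(2 * Real.pi * n * Complex.I : ℂ)‖ ^ 2 = (2 * Real.pi * n) ^ 2 := by
    rw [show (2 * Real.pi * n * Complex.I : ℂ) = ((2 * Real.pi * n : ℝ) : ℂ) * Complex.I by
      push_cast; ring, norm_mul, Complex.norm_I, mul_one, Complex.norm_real, Real.norm_eq_abs,
      sq_abs]
  rw [h3, show 2 * Real.pi * n * h / 2 = Real.pi * n * h by ring, mul_pow,
    show (2 * Real.pi * (n:ℝ)) ^ 2 = 2 ^ 2 * (Real.pi * n) ^ 2 by ring]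
  rw [mul_div_mul_left _ _ (by norm_num)]

lemma hasSum_s (h : ℝ) (h0 : 0 ≤ h) (h1 : h ≤ 1) : HasSum (s h) ((h - h ^ 2) / 2) := by
  have a1 := hasSum_zeta_two
  have a2 := hasSum_one_div_nat_pow_mul_cos (k := 1) one_ne_zero (x := h) ⟨h0, h1⟩
  have a3 := (a1.sub a2).mul_left (1 / (2 * Real.pi ^ 2))
  have hpi := Real.pi_ne_zero
  have e1 : (Polynomial.map (algebraMap ℚ ℝ) (Polynomial.bernoulli (2 * 1))).eval h =
      h ^ 2 - h + 1 / 6 := by
    simp [Polynomial.bernoulli, Finset.sum_range_succ, bernoulli, bernoulli'_two, Nat.choose]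
    ring
  rw [e1] at a3
  have e2 : 1 / (2 * Real.pi ^ 2) * (Real.pi ^ 2 / 6 -
      (-1 : ℝ) ^ (1 + 1) * (2 * Real.pi) ^ (2 * 1) / 2 / (2 * 1).factorial *
        (h ^ 2 - h + 1 / 6)) = (h - h ^ 2) / 2 := by
    simp only [mul_one, Nat.factorial]
    field_simp
    push_cast
    ring
  rw [e2] at a3
  convert! a3 using 1
  funext n
  unfold s
  rcases Nat.eq_zero_or_pos n with hn | hn
  · subst hn; simp
  have hn' : (n : ℝ) ≠ 0 := by positivity
  have h3 : Real.cos (2 * Real.pi * n * h) = 1 - 2 * Real.sin (Real.pi * n * h) ^ 2 := by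
    rw [show 2 * Real.pi * n * h = 2 * (Real.pi * n * h) by ring, Real.cos_two_mul,
      Real.cos_sq']
    ring
  rw [h3, mul_one]
  field_simp
  ring

lemma s_nonneg (h : ℝ) (n : ℕ) : 0 ≤ s h n := by
  unfold s; positivity

lemma s_le (h : ℝ) (n : ℕ) : s h n ≤ (1 / 9) * ((n : ℝ) ^ 2)⁻¹ := by
  unfold s
  rcases Nat.eq_zero_or_pos n with hn | hn
  · subst hn; simp
  have hn' : (0:ℝ) < n := by exact_mod_cast hn
  have h1 : Real.sin (Real.pi * n * h) ^ 2 ≤ 1 := Real.sin_sq_le_one _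
  have h2 : (9:ℝ) ≤ Real.pi ^ 2 := by nlinarith [Real.pi_gt_three]
  calc Real.sin (Real.pi * n * h) ^ 2 / (Real.pi * n) ^ 2 ≤ 1 / (Real.pi * n) ^ 2 := by gcongr
    _ ≤ 1 / (9 * (n:ℝ) ^ 2) := by
        rw [mul_pow]
        gcongr
    _ = (1 / 9) * ((n : ℝ) ^ 2)⁻¹ := by
        field_simp

/-- the increments of the variance -/
noncomputable def g (h : ℝ) (m : ℕ) : ℝ := h - h ^ 2 - 2 * ∑ n ∈ range (m + 1), s h n

lemma g_le (h : ℝ) (m : ℕ) : g h m ≤ h := by
  unfold g
  have : 0 ≤ ∑ n ∈ range (m + 1), s h n := Finset.sum_nonneg fun n _ => s_nonneg h n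
  nlinarith [sq_nonneg h]

lemma g_le' (h : ℝ) (h0 : 0 ≤ h) (h1 : h ≤ 1) (m : ℕ) (hm : 1 ≤ m) :
    g h m ≤ (2 / 9) * (1 / (m : ℝ)) := by
  unfold g
  have h2 := (hasSum_s h h0 h1).tendsto_sum_nat
  have h3 : (h - h ^ 2) / 2 ≤ ∑ n ∈ range (m + 1), s h n + (1 / 9) * (1 / (m : ℝ)) := by
    refine le_of_tendsto h2 ?_
    filter_upwards [eventually_ge_atTop (m + 1)] with N hN
    obtain ⟨N', rfl⟩ : ∃ N', N = N' + 1 := ⟨N - 1, by omega⟩
    rw [← Finset.sum_range_add_sum_Ico (s h) hN]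
    gcongr
    have h4 : Finset.Ico (m + 1) (N' + 1) = Finset.Ioc m N' := by
      ext x; simp only [Finset.mem_Ico, Finset.mem_Ioc]; omega
    rw [h4]
    calc ∑ i ∈ Finset.Ioc m N', s h i ≤ ∑ i ∈ Finset.Ioc m N', (1 / 9) * ((i : ℝ) ^ 2)⁻¹ :=
          Finset.sum_le_sum fun i _ => s_le h i
      _ = (1 / 9) * ∑ i ∈ Finset.Ioc m N', ((i : ℝ) ^ 2)⁻¹ := by rw [Finset.mul_sum]
      _ ≤ (1 / 9) * ((m : ℝ)⁻¹ - (N' : ℝ)⁻¹) := by
          gcongr
          exact sum_Ioc_inv_sq_le_sub (by omega) (by omega)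
      _ ≤ (1 / 9) * (1 / (m : ℝ)) := by
          have : (0:ℝ) ≤ (N' : ℝ)⁻¹ := by positivity
          rw [one_div (m : ℝ)]
          linarith
  linarith

/-- the squares of the Fourier coefficients -/
noncomputable def q (h : ℝ) (n : ℤ) : ℝ := if n = 0 then h ^ 2 else s h n.natAbs

lemma norm_int' (n : ℤ) (a h : ℝ) : ‖∫ t in a..(a+h), e (n * t)‖ ^ 2 = q h n := by
  unfold q
  split_ifs with hn
  · subst hn
    have : ∀ t : ℝ, e ((0:ℤ) * t) = 1 := by
      intro t; simp [e]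
    simp_rw [this]
    simp
  · rw [norm_int n hn]
    unfold s
    rcases Int.natAbs_eq n with h3 | h3
    · have h4 : (n : ℝ) = (n.natAbs : ℝ) := by
        have h5 := congrArg (fun z : ℤ => (z : ℝ)) h3
        simp only [Int.cast_natCast] at h5
        exact h5
      rw [h4]
    · have h4 : (n : ℝ) = -(n.natAbs : ℝ) := by
        exact_mod_cast congrArg (fun z : ℤ => (z : ℝ)) h3
      rw [h4, show Real.pi * -(n.natAbs : ℝ) * h = -(Real.pi * (n.natAbs : ℝ) * h) by ring,
        Real.sin_neg, neg_sq, mul_neg, neg_sq]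

/-- the double sum -/
noncomputable def A (h : ℝ) (M : ℕ) : ℝ :=
  ∑ j ∈ range M, ∑ k ∈ range M, q h ((j : ℤ) - k)

lemma A_succ (h : ℝ) (M : ℕ) : A h (M + 1) = A h M + (h ^ 2 + 2 * ∑ n ∈ range (M + 1), s h n) := by
  have hs : ∑ n ∈ range (M + 1), s h n = ∑ k ∈ range M, s h (M - k) := by
    rw [Finset.sum_range_succ', show s h 0 = 0 by simp [s], add_zero,
      ← Finset.sum_range_reflect]
    refine Finset.sum_congr rfl fun k hk => ?_
    rw [Finset.mem_range] at hk
    congr 1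
    omega
  have e1 : ∑ k ∈ range M, q h ((M : ℤ) - k) = ∑ n ∈ range (M + 1), s h n := by
    rw [hs]
    refine Finset.sum_congr rfl fun k hk => ?_
    rw [Finset.mem_range] at hk
    unfold q
    rw [if_neg (by omega)]
    congr 1
    omega
  have e2 : ∑ k ∈ range M, q h ((k : ℤ) - M) = ∑ n ∈ range (M + 1), s h n := by
    rw [hs]
    refine Finset.sum_congr rfl fun k hk => ?_
    rw [Finset.mem_range] at hk
    unfold q
    rw [if_neg (by omega)]
    congr 1
    omega
  generalize ∑ n ∈ range (M + 1), s h n = T at e1 e2 ⊢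
  unfold A
  rw [Finset.sum_range_succ]
  simp_rw [Finset.sum_range_succ _ M]
  rw [Finset.sum_add_distrib, e1, e2]
  have e3 : q h ((M : ℤ) - M) = h ^ 2 := by simp [q]
  rw [e3]
  ring

lemma A_eq (h : ℝ) (M : ℕ) : M * h - A h M = ∑ m ∈ range M, g h m := by
  induction M with
  | zero => simp [A]
  | succ M ih =>
    rw [Finset.sum_range_succ, ← ih, A_succ]
    unfold g
    push_cast
    ring

lemma V_eq (M : ℕ) (a h : ℝ) (h0 : 0 ≤ h) (h1 : h ≤ 1) :
    V M {t : ℝ | t ∈ Set.Ico (0 : ℝ) 1 ∧ Int.fract (t - a) < h} = ∑ m ∈ range M, g h m := by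
  rw [← A_eq]
  unfold V
  rw [vol_U a h h0 h1]
  congr 1
  unfold A
  rw [Finset.sum_range]
  refine Finset.sum_congr rfl fun j _ => ?_
  rw [Finset.sum_range]
  refine Finset.sum_congr rfl fun k _ => ?_
  rw [← norm_int' _ a h]
  congr 2
  have := int_U (fun t : ℝ => e ((((j : ℕ) : ℤ) - ((k : ℕ) : ℤ) : ℤ) * t)) (e_per _) a h h0 h1
  rw [← this]
  congr 1
  funext t
  congr 1
  push_cast
  rfl

lemma harm (K : ℕ) (hK : 1 ≤ K) (N : ℕ) (hN : K ≤ N) :
    ∑ m ∈ Finset.Ico (K + 1) (N + 1), (1 / (m : ℝ)) ≤ Real.log N - Real.log K := by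
  induction N, hN using Nat.le_induction with
  | base => simp
  | succ N hN ih =>
    rw [Finset.sum_Ico_succ_top (by omega)]
    have hN0 : (0:ℝ) < N := by exact_mod_cast (by omega : 0 < N)
    have h1 : 1 / ((N + 1 : ℕ) : ℝ) ≤ Real.log ((N + 1 : ℕ) : ℝ) - Real.log N := by
      rw [← Real.log_div (by positivity) (by positivity)]
      have h2 := Real.one_sub_inv_le_log_of_pos (x := ((N + 1 : ℕ) : ℝ) / N) (by positivity)
      refine le_trans (le_of_eq ?_) h2
      push_cast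
      field_simp
      ring
    linarith

end Var

open Var in
theorem VAR : Pool.Agent.N805.JG.S_VAR := by
  intro M hM a h h0 h1
  rw [V_eq M a h h0 h1]
  have hlog : 0 ≤ Real.log (1 + M * h) := Real.log_nonneg (by nlinarith [Nat.cast_nonneg (α := ℝ) M])
  by_cases hc : M * h ≤ 1
  · calc ∑ m ∈ range M, g h m ≤ ∑ m ∈ range M, h := Finset.sum_le_sum fun m _ => g_le h m
      _ = M * h := by simp
      _ ≤ 3 + Real.log (1 + M * h) := by linarith
  push Not at hc
  have hM0 : (0:ℝ) < M := by exact_mod_cast hM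
  have hpos : 0 < h := by
    rcases h0.eq_or_lt with h3 | h3
    · rw [← h3] at hc; norm_num at hc
    · exact h3
  set K := ⌊1 / h⌋₊ with hK
  have hK1 : 1 ≤ K := by
    rw [hK, Nat.le_floor_iff (by positivity)]
    rw [le_div_iff₀ hpos]; simpa using h1
  have hK2 : (K : ℝ) ≤ 1 / h := Nat.floor_le (by positivity)
  have hK3 : 1 / h < K + 1 := Nat.lt_floor_add_one _
  have hKM : K + 1 ≤ M := by
    have : (K : ℝ) < M := lt_of_le_of_lt hK2 (by rw [div_lt_iff₀ hpos]; exact hc)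
    exact_mod_cast this
  have hKh : K * h ≤ 1 := by rwa [le_div_iff₀ hpos] at hK2
  have hK1' : (1:ℝ) ≤ K := by exact_mod_cast hK1
  have hKh2 : 1 ≤ 2 * K * h := by
    rw [div_lt_iff₀ hpos] at hK3
    nlinarith
  rw [← Finset.sum_range_add_sum_Ico (g h) hKM]
  have p1 : ∑ m ∈ range (K + 1), g h m ≤ 2 := by
    calc ∑ m ∈ range (K + 1), g h m ≤ ∑ m ∈ range (K + 1), h := Finset.sum_le_sum fun m _ => g_le h m
      _ = (K + 1) * h := by simp
      _ ≤ 2 := by linarith
  have p2 : ∑ m ∈ Finset.Ico (K + 1) M, g h m ≤ (2 / 9) * (Real.log M - Real.log K) := by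
    calc ∑ m ∈ Finset.Ico (K + 1) M, g h m
        ≤ ∑ m ∈ Finset.Ico (K + 1) M, (2 / 9) * (1 / (m : ℝ)) := by
          refine Finset.sum_le_sum fun m hm => g_le' h h0 h1 m ?_
          rw [Finset.mem_Ico] at hm; omega
      _ = (2 / 9) * ∑ m ∈ Finset.Ico (K + 1) M, (1 / (m : ℝ)) := by rw [Finset.mul_sum]
      _ ≤ (2 / 9) * ∑ m ∈ Finset.Ico (K + 1) (M + 1), (1 / (m : ℝ)) := by
          refine mul_le_mul_of_nonneg_left ?_ (by norm_num)
          refine Finset.sum_le_sum_of_subset_of_nonneg ?_ fun i _ _ => by positivity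
          exact Finset.Ico_subset_Ico_right (by omega)
      _ ≤ (2 / 9) * (Real.log M - Real.log K) := by
          gcongr
          exact harm K hK1 M (by omega)
  have p3 : Real.log M - Real.log K ≤ 1 + Real.log (1 + M * h) := by
    have q1 : Real.log M ≤ Real.log (2 * (M * h) * K) := by
      apply Real.log_le_log hM0
      nlinarith
    have hMh : 0 < M * h := by positivity
    rw [Real.log_mul (by positivity) (by positivity), Real.log_mul (by norm_num) (by positivity)] at q1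
    have q2 : Real.log (M * h) ≤ Real.log (1 + M * h) := Real.log_le_log hMh (by linarith)
    have q3 : Real.log 2 ≤ 1 := by
      have := Real.log_two_lt_d9; linarith
    linarith
  linarith

end Pool.Agent.N247.JG
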